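import Pool.Agent.LibRM53.RM1
import Pool.Agent.LibTP53.GF
import Pool.Agent.LibTP53.HE
import Pool.Agent.LibTP53.GG
import Pool.Agent.LibTP53.MA
import Pool.Agent.LibTP53.MB

/-
Radial convolution operators and radial Fourier multipliers, every dimension at least 3 (as HG and MC in
LibTP53).
-/

set_option autoImplicit false

noncomputable section

open MeasureTheory Metric Set Filter

namespace Pool.LibRM53

open Pool.LibSR53 Pool.LibTP53

/-- radial convolution operators with bounded kernels -/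
theorem mult_mainP (d : ℕ) (hd : 3 ≤ d) (p : ℝ) (hp1 : 1 < p)
    (hp2 : p < 2 * ((d : ℝ) + 1) / ((d : ℝ) + 3)) (η : SchwartzMap (E d) ℂ)
    (hη : ∃ ε : ℝ, 0 < ε ∧ Van η ε) :
    ∃ C : ℝ, 0 < C ∧ ∀ K : E d → ℂ, Continuous K → (∃ B : ℝ, ∀ x, ‖K x‖ ≤ B) →
      (∀ x y : E d, ‖x‖ = ‖y‖ → K x = K y) →
      (∀ x, ∫ y, η (x - y) * K y = K x) →
      (∀ f : E d → ℂ, MemLp f (ENNReal.ofReal p) volume →
        eLpNorm (fun x => ∫ y, K (x - y) * f y) (ENNReal.ofReal p) volume ≤
          ENNReal.ofReal C * eLpNorm K (ENNReal.ofReal p) volume *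
            eLpNorm f (ENNReal.ofReal p) volume) ∧
      (∀ B : ENNReal, (∀ f : SchwartzMap (E d) ℂ,
        eLpNorm (fun x => ∫ y, K (x - y) * f y) (ENNReal.ofReal p) volume ≤
          B * eLpNorm f (ENNReal.ofReal p) volume) →
        eLpNorm K (ENNReal.ofReal p) volume ≤ ENNReal.ofReal C * B) := by
  classical
  obtain ⟨C1, hC1, hlow⟩ := low_part d p hp1 η
  obtain ⟨C2, hC2, hhigh⟩ := Pool.LibRM53.high_part d hd p hp1 hp2 η hη
  have hηp : MemLp η (ENNReal.ofReal p) (volume : Measure (E d)) := η.memLp _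
  set N : ℝ := (eLpNorm η (ENNReal.ofReal p) (volume : Measure (E d))).toReal with hN
  have hN0 : 0 ≤ N := ENNReal.toReal_nonneg
  have hp0 : 0 < p := by linarith
  have hpp : ENNReal.ofReal p ≠ 0 := by simpa using hp0
  have hp2' : p ≤ 2 := by
    refine hp2.le.trans ?_
    rw [div_le_iff₀ (by positivity)]
    nlinarith
  refine ⟨C1 + C2 + N, by linarith, ?_⟩
  intro K hKc hKb hrad hK
  have hp1' : (1 : ENNReal) ≤ ENNReal.ofReal p := by
    rw [← ENNReal.ofReal_one]
    exact ENNReal.ofReal_le_ofReal hp1.le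
  constructor
  · intro f hf
    by_cases hKp : MemLp K (ENNReal.ofReal p) volume
    swap
    · have hKtop : eLpNorm K (ENNReal.ofReal p) volume = ⊤ := by
        by_contra h
        exact hKp ⟨hKc.aestronglyMeasurable, lt_of_le_of_ne le_top h⟩
      by_cases hf0 : eLpNorm f (ENNReal.ofReal p) volume = 0
      · have hfz : f =ᵐ[volume] 0 := (eLpNorm_eq_zero_iff hf.1 hpp).1 hf0
        have hz : (fun x : E d => ∫ y, K (x - y) * f y) = fun _ => 0 := by
          funext x
          rw [← integral_zero (E d) ℂ (μ := volume)]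
          refine integral_congr_ae ?_
          filter_upwards [hfz] with y hy
          simp [hy]
        rw [hz]
        simp
      · rw [hKtop, ENNReal.mul_top (by simpa using (by linarith : (0 : ℝ) < C1 + C2 + N)),
          ENNReal.top_mul hf0]
        exact le_top
    obtain ⟨B, hB⟩ := id hKb
    have hms1 : MeasurableSet {z : E d | ‖z‖ ≤ 1} :=
      measurableSet_le measurable_norm measurable_const
    have hms2 : MeasurableSet {z : E d | 1 < ‖z‖} :=
      measurableSet_lt measurable_const measurable_norm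
    have hfin : volume {z : E d | ‖z‖ ≤ 1} ≠ ⊤ := by
      have : {z : E d | ‖z‖ ≤ 1} = Metric.closedBall 0 1 := by ext z; simp
      rw [this]
      exact measure_closedBall_lt_top.ne
    have hi1 : Integrable ({z : E d | ‖z‖ ≤ 1}.indicator K) := by
      rw [integrable_indicator_iff hms1]
      refine Measure.integrableOn_of_bounded (M := B) hfin hKc.aestronglyMeasurable ?_
      exact Filter.Eventually.of_forall hB
    have hk1b : ∃ B : ℝ, ∀ x, ‖{z : E d | ‖z‖ ≤ 1}.indicator K x‖ ≤ B :=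
      ⟨B, fun x => (norm_indicator_le_norm_self K x).trans (hB x)⟩
    have hk2b : ∃ B : ℝ, ∀ x, ‖{z : E d | 1 < ‖z‖}.indicator K x‖ ≤ B :=
      ⟨B, fun x => (norm_indicator_le_norm_self K x).trans (hB x)⟩
    have hk2p : MemLp ({z : E d | 1 < ‖z‖}.indicator K) (ENNReal.ofReal p) volume :=
      hKp.indicator hms2
    have hk1p : MemLp ({z : E d | ‖z‖ ≤ 1}.indicator K) (ENNReal.ofReal p) volume :=
      hKp.indicator hms1
    obtain ⟨a1, a2, a3⟩ := GG_conv d η _ hi1
    obtain ⟨c1, ⟨D1, hD1⟩, c3⟩ := HE_conv d p hp1 η _ hk1b hk1p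
    obtain ⟨e1, ⟨D2, hD2⟩, e3⟩ := HE_conv d p hp1 η _ hk2b hk2p
    have hηc : Continuous η := η.continuous
    have hint1 : ∀ w : E d, Integrable (fun z => η (w - z) * ({z : E d | ‖z‖ ≤ 1}.indicator K z)) := by
      intro w
      refine (c1 w).mono' (((hηc.comp (continuous_const.sub continuous_id)).aestronglyMeasurable).mul
        hk1p.1) (Filter.Eventually.of_forall fun z => ?_)
      rw [norm_mul]
    have hint2 : ∀ w : E d, Integrable (fun z => η (w - z) * ({z : E d | 1 < ‖z‖}.indicator K z)) := by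
      intro w
      refine (e1 w).mono' (((hηc.comp (continuous_const.sub continuous_id)).aestronglyMeasurable).mul
        hk2p.1) (Filter.Eventually.of_forall fun z => ?_)
      rw [norm_mul]
    have hsplit : ∀ w : E d, K w = (∫ z, η (w - z) * ({z : E d | ‖z‖ ≤ 1}.indicator K z)) +
        ∫ z, η (w - z) * ({z : E d | 1 < ‖z‖}.indicator K z) := by
      intro w
      rw [← integral_add (hint1 w) (hint2 w)]
      conv_lhs => rw [← hK w]
      refine integral_congr_ae (Filter.Eventually.of_forall fun z => ?_)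
      simp only
      rw [← mul_add]
      congr 1
      by_cases h : ‖z‖ ≤ 1
      · have h' : ¬ (1 < ‖z‖) := not_lt.mpr h
        rw [Set.indicator_of_mem (show z ∈ {z : E d | ‖z‖ ≤ 1} from h),
          Set.indicator_of_notMem (show z ∉ {z : E d | 1 < ‖z‖} from h'), add_zero]
      · have h' : 1 < ‖z‖ := not_le.mp h
        rw [Set.indicator_of_notMem (show z ∉ {z : E d | ‖z‖ ≤ 1} from h),
          Set.indicator_of_mem (show z ∈ {z : E d | 1 < ‖z‖} from h'), zero_add]
    have hbeq : (fun w : E d => ∫ z, η (w - z) * ({z : E d | 1 < ‖z‖}.indicator K z)) =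
        fun w => K w - ∫ z, η (w - z) * ({z : E d | ‖z‖ ≤ 1}.indicator K z) := by
      funext w
      have := hsplit w
      rw [this]
      ring
    have b1 : Continuous
        (fun w : E d => ∫ z, η (w - z) * ({z : E d | 1 < ‖z‖}.indicator K z)) := by
      rw [hbeq]
      exact hKc.sub a1
    have hble : ∀ w : E d, ‖∫ z, η (w - z) * ({z : E d | 1 < ‖z‖}.indicator K z)‖ ≤
        ∫ z, ‖η (w - z)‖ * ‖{z : E d | 1 < ‖z‖}.indicator K z‖ := by
      intro w
      refine (norm_integral_le_integral_norm _).trans (le_of_eq ?_)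
      refine integral_congr_ae (Filter.Eventually.of_forall fun z => ?_)
      simp only [norm_mul]
    have b2 : ∃ B : ℝ, ∀ w : E d,
        ‖∫ z, η (w - z) * ({z : E d | 1 < ‖z‖}.indicator K z)‖ ≤ B :=
      ⟨D2, fun w => (hble w).trans (hD2 w)⟩
    have b3 : MemLp (fun w : E d => ∫ z, η (w - z) * ({z : E d | 1 < ‖z‖}.indicator K z))
        (ENNReal.ofReal p) volume := by
      refine e3.mono b1.aestronglyMeasurable (Filter.Eventually.of_forall fun w => ?_)
      refine (hble w).trans ?_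
      rw [Complex.norm_real]
      exact le_abs_self _
    have hsum : (fun x : E d => ∫ y, K (x - y) * f y) =
        (fun x : E d => ∫ y, (∫ z, η (x - y - z) * ({z : E d | ‖z‖ ≤ 1}.indicator K z)) * f y) +
        (fun x : E d => ∫ y, (∫ z, η (x - y - z) * ({z : E d | 1 < ‖z‖}.indicator K z)) * f y) := by
      funext x
      simp only [Pi.add_apply]
      rw [← integral_add (GG_int d p hp1 _ f a1 a2 a3 hf x) (HE_int d p hp1 hp2' _ f b2 b3 hf x)]
      refine integral_congr_ae (Filter.Eventually.of_forall fun y => ?_)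
      simp only
      rw [hsplit (x - y), add_mul]
    have hadd := eLpNorm_add_le (GG_meas d _ f a1 hf.1) (GG_meas d _ f b1 hf.1) hp1'
    rw [hsum]
    refine hadd.trans ?_
    refine (add_le_add (hlow K f hKc hf)
      (high_limP d (by omega) p hp1 hp2' η C2 hhigh K hKc hKb hKp hrad f hf)).trans ?_
    rw [← add_mul, ← add_mul, ← ENNReal.ofReal_add hC1.le hC2.le]
    have h12 : C1 + C2 ≤ C1 + C2 + N := by linarith
    gcongr ENNReal.ofReal ?_ * _ * _
  · intro B hB
    have h1 := hB η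
    have h2 : (fun x : E d => ∫ y, K (x - y) * η y) = K := by
      funext x
      rw [← hK x]
      rw [← integral_sub_left_eq_self (fun y => η (x - y) * K y) volume x]
      refine integral_congr_ae (Filter.Eventually.of_forall fun y => ?_)
      simp only [sub_sub_cancel]
      exact mul_comm _ _
    rw [h2] at h1
    refine h1.trans ?_
    rw [mul_comm]
    gcongr
    rw [← ENNReal.ofReal_toReal hηp.2.ne]
    exact ENNReal.ofReal_le_ofReal (by linarith)

open scoped FourierTransform in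
private theorem MC_inv {d : ℕ} (g : E d → ℂ) : 𝓕⁻ g = fun x => ∫ ξ, ex x ξ * g ξ := by
  funext x
  rw [Real.fourierInv_eq']
  refine integral_congr_ae (Eventually.of_forall fun ξ => ?_)
  simp only [ex, smul_eq_mul]
  rw [real_inner_comm]
  congr 2
  push_cast
  ring

open scoped FourierTransform in
private theorem MC_fwd {d : ℕ} (f : E d → ℂ) : 𝓕 f = fun ξ => ∫ y, ex (-y) ξ * f y := by
  funext ξ
  rw [Real.fourier_eq']
  refine integral_congr_ae (Eventually.of_forall fun w => ?_)
  simp only [ex, smul_eq_mul, inner_neg_left]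
  congr 2
  push_cast
  ring

open scoped FourierTransform in
/-- radial Fourier multipliers supported in an annulus -/
theorem radial_multipliers (d : ℕ) (hd : 3 ≤ d) (p : ℝ) (hp1 : 1 < p)
    (hp2 : p < 2 * ((d : ℝ) + 1) / ((d : ℝ) + 3)) (ε A : ℝ) (hε : 0 < ε) :
    ∃ C : ℝ, 0 < C ∧ ∀ m : E d → ℂ, Measurable m → (∃ B : ℝ, ∀ ξ, ‖m ξ‖ ≤ B) →
      (∀ ξ ξ' : E d, ‖ξ‖ = ‖ξ'‖ → m ξ = m ξ') →
      (∀ ξ, m ξ ≠ 0 → ε ≤ ‖ξ‖ ∧ ‖ξ‖ ≤ A) →
      (∀ f : SchwartzMap (E d) ℂ,
        eLpNorm (𝓕⁻ (fun ξ => m ξ * 𝓕 (f : E d → ℂ) ξ)) (ENNReal.ofReal p) volume ≤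
          ENNReal.ofReal C * eLpNorm (𝓕⁻ m) (ENNReal.ofReal p) volume *
            eLpNorm f (ENNReal.ofReal p) volume) ∧
      (∀ B : ENNReal, (∀ f : SchwartzMap (E d) ℂ,
        eLpNorm (𝓕⁻ (fun ξ => m ξ * 𝓕 (f : E d → ℂ) ξ)) (ENNReal.ofReal p) volume ≤
          B * eLpNorm f (ENNReal.ofReal p) volume) →
        eLpNorm (𝓕⁻ m) (ENNReal.ofReal p) volume ≤ ENNReal.ofReal C * B) := by
  obtain ⟨η, hη, hη1⟩ := exists_eta d ε A hε
  obtain ⟨C, hC, h⟩ := Pool.LibRM53.mult_mainP d hd p hp1 hp2 η hη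
  refine ⟨C, hC, fun m hm hmb hrad hsupp => ?_⟩
  obtain ⟨k1, k2, k3, k4, k5⟩ := kernel_facts d ε A η hη1 m hm hmb hrad hsupp
  obtain ⟨h1, h2⟩ := h (fun x => ∫ ξ, ex x ξ * m ξ) k1 k2 k3 k4
  have hmul : ∀ f : SchwartzMap (E d) ℂ, 𝓕⁻ (fun ξ => m ξ * 𝓕 (f : E d → ℂ) ξ) =
      fun x => ∫ y, (∫ ξ, ex (x - y) ξ * m ξ) * f y := by
    intro f
    rw [MC_inv, MC_fwd]
    funext x
    exact (k5 f x).symm
  rw [MC_inv m]
  refine ⟨fun f => ?_, fun B hB => h2 B fun f => ?_⟩
  · rw [hmul f]
    exact h1 f (f.memLp _ _)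
  · have h3 := hB f
    rw [hmul f] at h3
    exact h3

end Pool.LibRM53
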